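import Pool.Agent.T6.H19.PB.Sel
import Pool.Agent.TH812.GV2.Global

/-!
The height inequality for points with special values of a generic map.
-/

set_option autoImplicit false

open MvPolynomial FF Pool.Agent.W603.LV Pool.Agent.W603.PV Pool.Agent.TH145.GH

namespace Pool.Agent.T6.H19.PB

open Pool.Agent.TH812.GV Pool.Agent.TH812.GV2

variable {k K : Type} [Field k] [Field K] [Algebra k K] {n N : ℕ} {β : Type}

open Classical in
/-- The total weight. -/
theorem sum_wt' [Fintype β] {d : Fin (N + 1) ⊕ β → ℕ} {v : Fin (n + 1) → Gn (Fin (N + 1) ⊕ β) n}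
    {t0 : Fin (n + 1)} (ht0 : v t0 = Gn.x)
    {m : ℕ} (hT : (Finset.univ.filter fun t => (v t).lev ≤ 2).card ≤ m + 1) {dd : ℕ}
    (hdd : ∀ a, d (Sum.inl a) = dd) {c : ℕ}
    (hc : c ≤ (Finset.univ.filter fun t => ∃ a, v t = Gn.v (Sum.inl a)).card)
    (S : Finset β) (hS : ∀ b ∉ S, ∃ t, v t = Gn.v (Sum.inr b)) :
    ∑ t, (v t).wt d ≤ 2 * (m + 1) - 1 - c * ((dd : ℤ) + 1) -
      ∑ b ∈ Sᶜ, ((d (Sum.inr b) : ℤ) + 1) := by
  have h1 : ∀ g : Gn (Fin (N + 1) ⊕ β) n, g.wt d = 2 * (if g.lev ≤ 2 then 1 else 0) -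
      (if g = Gn.x then 1 else 0) - (if ∃ a, g = Gn.v (Sum.inl a) then 1 else 0) * ((dd : ℤ) + 1) -
      ∑ b, (if g = Gn.v (Sum.inr b) then ((d (Sum.inr b) : ℤ) + 1) else 0) := by
    intro g
    rcases g with _ | ⟨a, M, i, j⟩ | (a | b) | i
    · simp [Gn.wt, Gn.lev]
    · simp [Gn.wt, Gn.lev]
    · have e1 : ∃ a', (Gn.v (Sum.inl a) : Gn (Fin (N + 1) ⊕ β) n) = Gn.v (Sum.inl a') := ⟨a, rfl⟩
      rw [if_pos e1]
      simp [Gn.wt, Gn.lev, hdd]
      ring
    · have e1 : ¬ ∃ a', (Gn.v (Sum.inr b) : Gn (Fin (N + 1) ⊕ β) n) = Gn.v (Sum.inl a') := by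
        rintro ⟨a', h⟩
        simp at h
      rw [if_neg e1]
      simp only [Gn.wt, Gn.lev, Gn.v.injEq, Sum.inr.injEq, Finset.sum_ite_eq, Finset.mem_univ,
        if_true]
      simp
      ring
    · simp [Gn.wt, Gn.lev]
  rw [Finset.sum_congr rfl fun t _ => h1 (v t), Finset.sum_sub_distrib, Finset.sum_sub_distrib,
    Finset.sum_sub_distrib, ← Finset.mul_sum, ← Finset.sum_mul, Finset.sum_boole,
    Finset.sum_boole (fun t => ∃ a, v t = Gn.v (Sum.inl a)), Finset.sum_comm]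
  have h2 : (1 : ℤ) ≤ ∑ t, if v t = Gn.x then 1 else 0 := by
    have := Finset.single_le_sum (f := fun t => if v t = Gn.x then (1 : ℤ) else 0)
      (fun t _ => by positivity) (Finset.mem_univ t0)
    simpa [ht0] using this
  have h3 : ∑ b ∈ Sᶜ, ((d (Sum.inr b) : ℤ) + 1) ≤
      ∑ b, ∑ t, (if v t = Gn.v (Sum.inr b) then ((d (Sum.inr b) : ℤ) + 1) else 0) := by
    have h4 : ∀ b, 0 ≤ ∑ t, (if v t = Gn.v (Sum.inr b) then ((d (Sum.inr b) : ℤ) + 1) else 0) :=
      fun b => Finset.sum_nonneg fun t _ => by positivity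
    refine le_trans (Finset.sum_le_sum fun b hb => ?_)
      (Finset.sum_le_sum_of_subset_of_nonneg (Finset.subset_univ Sᶜ) fun b _ _ => h4 b)
    obtain ⟨t, ht⟩ := hS b (Finset.mem_compl.1 hb)
    have := Finset.single_le_sum
      (f := fun t => if v t = Gn.v (Sum.inr b) then ((d (Sum.inr b) : ℤ) + 1) else 0)
      (fun t _ => by positivity) (Finset.mem_univ t)
    simpa [ht] using this
  have h5 : ((Finset.univ.filter fun t => (v t).lev ≤ 2).card : ℤ) ≤ m + 1 := by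
    exact_mod_cast hT
  have h6 : (c : ℤ) ≤ (Finset.univ.filter fun t => ∃ a, v t = Gn.v (Sum.inl a)).card := by
    exact_mod_cast hc
  have h7 : (c : ℤ) * ((dd : ℤ) + 1) ≤
      (Finset.univ.filter fun t => ∃ a, v t = Gn.v (Sum.inl a)).card * ((dd : ℤ) + 1) :=
    mul_le_mul_of_nonneg_right h6 (by positivity)
  linarith

variable {F : Fin (N + 1) ⊕ β → MvPolynomial (Fin (n + 1)) K} {d : Fin (N + 1) ⊕ β → ℕ}
    {D : Fin (N + 1) ⊕ β → (Fin (n + 1) →₀ ℕ) → Derivation ℤ K K}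
    {q e : Place k K → ℤ}

variable [IsAlgClosed k] [CharZero k] [IsFF k K]

open Classical in
/-- The height inequality. -/
theorem ineq3 [Fintype β] (hS : SysS k F d D (fun _ _ => 0) q e) {dd : ℕ}
    (hdd : ∀ a, d (Sum.inl a) = dd) {x : Fin (n + 1) → K} (hx0 : x ≠ 0) {m : ℕ}
    (W : Submodule K (Fin (n + 1) → K)) (hWm : Module.finrank K W ≤ m + 1) (hxW : x ∈ W)
    (hDW : ∀ a (I : Fin (n + 1) →₀ ℕ), I.degree = d a → (fun l => D a I (x l)) ∈ W)
    (T : Submodule K (Fin (N + 1) → K)) (hzT : (fun a => eval x (F (Sum.inl a))) ∈ T)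
    (hDT : ∀ i (I : Fin (n + 1) →₀ ℕ), I.degree = d i →
      (fun a => D i I (eval x (F (Sum.inl a)))) ∈ T) {c : ℕ}
    (hc : Module.finrank K T + c ≤ N + 1) :
    (c * ((dd : ℤ) + 1) + (∑ b, (d (Sum.inr b) : ℤ)) +
      ((Finset.univ.filter fun b => eval x (F (Sum.inr b)) = 0).card : ℤ) -
      2 * m - 1) * pht k x ≤ ∑ᶠ P : Place k K, ((if ∃ b, eval x (F (Sum.inr b)) ≠ 0 ∧
        d (Sum.inr b) * pord P x < P.ord (eval x (F (Sum.inr b))) then 1 else 0) +
          (e P + (Fintype.card β + m + 2) * q P)) := by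
  obtain ⟨l0, hl0⟩ := Function.ne_iff.1 hx0
  have hl0' : x l0 ≠ 0 := hl0
  obtain ⟨v, hdet, hv⟩ := exists_adapted (gw d D x l0) Gn.lev span_gw
  obtain ⟨t0, ht0⟩ := sel_x hx0 hdet hv
  have hselv := sel_v2 hS hl0' hdet hv
  have hT := card_T hdet W hWm hxW hDW
  have hsel := card_sel hS.hom hS.dual hdd hl0' hdet hv T hzT hDT hc
    (Finset.univ.filter fun t => ∃ a, v t = Gn.v (Sum.inl a))
    (fun t a h => Finset.mem_filter.2 ⟨Finset.mem_univ _, a, h⟩)
  obtain ⟨S, hSd⟩ : ∃ S : Finset β, S = Finset.univ.filter fun b => ∀ t, v t ≠ Gn.v (Sum.inr b) :=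
    ⟨_, rfl⟩
  have hSv : ∀ b ∈ S, ∀ t, v t ≠ Gn.v (Sum.inr b) := fun a ha => by
    rw [hSd, Finset.mem_filter] at ha
    exact ha.2
  have hS0 : ∀ b ∈ S, eval x (F (Sum.inr b)) ≠ 0 := by
    intro b hb h0
    obtain ⟨t, ht⟩ := hselv (Sum.inr b) h0
    exact hSv b hb t ht
  have hwt := sum_wt' (d := d) ht0 hT hdd hsel S (fun b hb => by
    rw [hSd, Finset.mem_filter, not_and] at hb
    have := hb (Finset.mem_univ _)
    push Not at this
    exact this)
  obtain ⟨w, hw⟩ : ∃ w : ℤ, w = ∑ t, (v t).wt d := ⟨_, rfl⟩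
  obtain ⟨Θ, hΘ⟩ : ∃ Θ, Θ = (Matrix.of fun t => gw d D x l0 (v t)).det /
    ∏ b ∈ S, eval x (F (Sum.inr b)) := ⟨_, rfl⟩
  have hprod0 : ∏ b ∈ S, eval x (F (Sum.inr b)) ≠ 0 := Finset.prod_ne_zero_iff.2 hS0
  have hΘ0 : Θ ≠ 0 := by
    rw [hΘ]; exact div_ne_zero hdet hprod0
  have hordprod : ∀ (P : Place k K) (s : Finset β), (∀ b ∈ s, eval x (F (Sum.inr b)) ≠ 0) →
      P.ord (∏ b ∈ s, eval x (F (Sum.inr b))) = ∑ b ∈ s, P.ord (eval x (F (Sum.inr b))) := by
    intro P s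
    induction s using Finset.induction_on with
    | empty => intro _; simp [P.ord_one]
    | insert a s ha ih =>
      intro h
      rw [Finset.prod_insert ha, Finset.sum_insert ha, P.ord_mul (h a (Finset.mem_insert_self _ _))
        (Finset.prod_ne_zero_iff.2 fun b hb => h b (Finset.mem_insert_of_mem hb)),
        ih fun b hb => h b (Finset.mem_insert_of_mem hb)]
  -- the local inequality
  have hloc : ∀ P : Place k K, (w - ∑ b ∈ S, (d (Sum.inr b) : ℤ)) * pord P x -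
      ((if ∃ b, eval x (F (Sum.inr b)) ≠ 0 ∧
        d (Sum.inr b) * pord P x < P.ord (eval x (F (Sum.inr b))) then 1 else 0) +
          (e P + (Fintype.card β + m + 2) * q P)) ≤ P.ord Θ := by
    intro P
    have hq0 := hS.qnn P
    obtain ⟨S', hS'⟩ : ∃ S' : Finset β, S' = S.filter fun b =>
      d (Sum.inr b) * pord P x < P.ord (eval x (F (Sum.inr b))) := ⟨_, rfl⟩
    obtain ⟨R, hR⟩ : ∃ R : Finset (Fin (N + 1) ⊕ β), R = S'.map ⟨Sum.inr, Sum.inr_injective⟩ :=
      ⟨_, rfl⟩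
    have hRm : ∀ a ∈ R, ∃ b ∈ S', a = Sum.inr b := by
      intro a ha
      rw [hR, Finset.mem_map] at ha
      obtain ⟨b, hb, rfl⟩ := ha
      exact ⟨b, hb, rfl⟩
    have h1 := local_ge2 hS hl0' v hdet hv hT R (fun a ha => by
      obtain ⟨b, hb, rfl⟩ := hRm a ha
      exact hSv b (by rw [hS', Finset.mem_filter] at hb; exact hb.1)) (fun a ha => by
      obtain ⟨b, hb, rfl⟩ := hRm a ha
      exact hS0 b (by rw [hS', Finset.mem_filter] at hb; exact hb.1)) P
    rw [← hw] at h1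
    have hRe : R = ∅ ↔ S' = ∅ := by rw [hR, Finset.map_eq_empty]
    have hRs : ∑ a ∈ R, (P.ord (eval x (F a)) - d a * pord P x - q P) =
        ∑ b ∈ S', (P.ord (eval x (F (Sum.inr b))) - d (Sum.inr b) * pord P x - q P) := by
      rw [hR, Finset.sum_map]
      rfl
    rw [hRs] at h1
    simp only [hRe] at h1
    have h2 : P.ord Θ = P.ord (Matrix.of fun t => gw d D x l0 (v t)).det -
        ∑ b ∈ S, P.ord (eval x (F (Sum.inr b))) := by
      rw [hΘ, P.ord_div hdet hprod0, hordprod P S hS0]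
    have h3 : ∑ b ∈ S, P.ord (eval x (F (Sum.inr b))) ≤
        ∑ b ∈ S', (P.ord (eval x (F (Sum.inr b))) - d (Sum.inr b) * pord P x) +
        (∑ b ∈ S, (d (Sum.inr b) : ℤ)) * pord P x := by
      have h4 : ∑ b ∈ S, P.ord (eval x (F (Sum.inr b))) =
          ∑ b ∈ S, (P.ord (eval x (F (Sum.inr b))) - d (Sum.inr b) * pord P x) +
          (∑ b ∈ S, (d (Sum.inr b) : ℤ)) * pord P x := by
        rw [Finset.sum_mul, ← Finset.sum_add_distrib]
        exact Finset.sum_congr rfl fun a _ => by ring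
      rw [h4, hS', Finset.sum_filter]
      refine add_le_add_left (Finset.sum_le_sum fun a _ => ?_) _
      split_ifs with h
      · exact le_rfl
      · omega
    have h5 : ∑ b ∈ S', (P.ord (eval x (F (Sum.inr b))) - d (Sum.inr b) * pord P x - q P) =
        ∑ b ∈ S', (P.ord (eval x (F (Sum.inr b))) - d (Sum.inr b) * pord P x) -
          S'.card * q P := by
      rw [← nsmul_eq_mul, ← Finset.sum_const, ← Finset.sum_sub_distrib]
    have h6 : (if S' = ∅ then (0 : ℤ) else 1) ≤ if ∃ b, eval x (F (Sum.inr b)) ≠ 0 ∧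
        d (Sum.inr b) * pord P x < P.ord (eval x (F (Sum.inr b))) then 1 else 0 := by
      by_cases h : S' = ∅
      · rw [if_pos h]; split_ifs <;> norm_num
      · obtain ⟨a, ha⟩ := Finset.nonempty_iff_ne_empty.2 h
        rw [hS', Finset.mem_filter] at ha
        rw [if_neg h, if_pos ⟨a, hS0 a ha.1, ha.2⟩]
    have h7 : (S'.card : ℤ) * q P ≤ Fintype.card β * q P := by
      refine mul_le_mul_of_nonneg_right ?_ hq0
      exact_mod_cast Finset.card_le_univ _
    rw [h5] at h1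
    rw [h2]
    have h9 : ((Fintype.card β : ℤ) + m + 2) * q P =
        Fintype.card β * q P + (m + 2) * q P := by
      ring
    rw [h9, sub_mul]
    linarith
  -- summation
  obtain ⟨C, hC⟩ : ∃ C : Place k K → ℤ, ∀ P, C P = (if ∃ b, eval x (F (Sum.inr b)) ≠ 0 ∧
      d (Sum.inr b) * pord P x < P.ord (eval x (F (Sum.inr b))) then 1 else 0) +
        (e P + (Fintype.card β + m + 2) * q P) := ⟨_, fun _ => rfl⟩
  have hp := pord_finite (k := k) (Function.ne_iff.1 hx0)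
  have hCfin : {P | C P ≠ 0}.Finite := by
    have h1 : (⋃ b : β, {P : Place k K | P.ord (eval x (F (Sum.inr b))) ≠ 0}).Finite :=
      Set.finite_iUnion fun a => finite_ne
    refine (((h1.union hp).union hS.qfin).union hS.efin).subset fun P hP => ?_
    by_contra hcon
    simp only [Set.mem_union, Set.mem_iUnion, Set.mem_ofPred_eq, not_or, not_exists, not_not] at hcon
    obtain ⟨⟨⟨h2, h3⟩, h4⟩, h4'⟩ := hcon
    have h3' : pord P x = 0 := by
      by_contra h
      exact h3 h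
    apply hP
    rw [hC, h4, h4', mul_zero, add_zero, add_zero, if_neg]
    rintro ⟨a, -, h5⟩
    rw [h2 a, h3', mul_zero] at h5
    exact lt_irrefl _ h5
  obtain ⟨T1, hT1⟩ := exists_supp (k := k) (Finset.univ : Finset Unit) (fun _ => Θ)
  obtain ⟨U, hU⟩ : ∃ U : Finset (Place k K), U = T1 ∪ (hp.toFinset ∪ hCfin.toFinset) := ⟨_, rfl⟩
  have g1 : ∑ P ∈ U, P.ord Θ = 0 := sum_ord_finset _ _ fun P hP => by
    rw [hU]; exact Finset.mem_union_left _ (hT1 () (Finset.mem_univ _) P hP)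
  have g2 : pht k x = - ∑ P ∈ U, pord P x := by
    unfold pht
    rw [finsum_eq_sum_of_support_subset (s := U)]
    intro P hP
    rw [hU]
    exact Finset.mem_union_right _ (Finset.mem_union_left _ (hp.mem_toFinset.2 hP))
  have g3 : ∑ᶠ P, C P = ∑ P ∈ U, C P := by
    rw [finsum_eq_sum_of_support_subset (s := U)]
    intro P hP
    rw [hU]
    exact Finset.mem_union_right _ (Finset.mem_union_right _ (hCfin.mem_toFinset.2 hP))
  have g4 := Finset.sum_le_sum (s := U) fun P _ => hloc P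
  rw [Finset.sum_sub_distrib, ← Finset.mul_sum, g1] at g4
  simp only [← hC] at g4
  rw [← g3] at g4
  have hpht : 0 ≤ pht k x :=
    (hgt_nonneg _).trans (Pool.Agent.W603.CX.hgt_le_pht (k := k) x hl0 hl0)
  have g5 : (∑ b ∈ S, (d (Sum.inr b) : ℤ) - w) * pht k x ≤ ∑ᶠ P, C P := by
    have : (w - ∑ b ∈ S, (d (Sum.inr b) : ℤ)) * ∑ P ∈ U, pord P x =
        (∑ b ∈ S, (d (Sum.inr b) : ℤ) - w) * pht k x := by rw [g2]; ring
    rw [this] at g4
    linarith
  have g6 : c * ((dd : ℤ) + 1) + (∑ b, (d (Sum.inr b) : ℤ)) +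
      ((Finset.univ.filter fun b => eval x (F (Sum.inr b)) = 0).card : ℤ) -
      2 * m - 1 ≤ ∑ b ∈ S, (d (Sum.inr b) : ℤ) - w := by
    have h1 : ∑ b ∈ S, (d (Sum.inr b) : ℤ) + ∑ b ∈ Sᶜ, (d (Sum.inr b) : ℤ) =
        ∑ b, (d (Sum.inr b) : ℤ) :=
      Finset.sum_add_sum_compl S _
    have h2 : ∑ b ∈ Sᶜ, ((d (Sum.inr b) : ℤ) + 1) = ∑ b ∈ Sᶜ, (d (Sum.inr b) : ℤ) + Sᶜ.card := by
      rw [Finset.sum_add_distrib]
      simp
    have h3 : ((Finset.univ.filter fun b => eval x (F (Sum.inr b)) = 0).card : ℤ) ≤ Sᶜ.card := by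
      have : (Finset.univ.filter fun b => eval x (F (Sum.inr b)) = 0) ⊆ Sᶜ := by
        intro a ha
        rw [Finset.mem_compl]
        intro haS
        exact hS0 a haS (Finset.mem_filter.1 ha).2
      exact_mod_cast Finset.card_le_card this
    rw [h2] at hwt
    rw [hw]
    linarith
  simp only [← hC]
  exact (mul_le_mul_of_nonneg_right g6 hpht).trans g5

end Pool.Agent.T6.H19.PB
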