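import Pool.Agent.TH812.GV.Glob

/-!
The number of the vector fields of level two for points with special values of a generic map.
-/

set_option autoImplicit false

open MvPolynomial FF Pool.Agent.W603.LV Pool.Agent.W603.PV Pool.Agent.TH145.GH

namespace Pool.Agent.T6.H19.PB

open Pool.Agent.TH812.GV

variable {K : Type} [Field K] {n N : ℕ} {β : Type}

section sel

variable {F : Fin (N + 1) ⊕ β → MvPolynomial (Fin (n + 1)) K} {d : Fin (N + 1) ⊕ β → ℕ}
    {D : Fin (N + 1) ⊕ β → (Fin (n + 1) →₀ ℕ) → Derivation ℤ K K} {x : Fin (n + 1) → K}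
    {l0 : Fin (n + 1)}

/-- The differential of the generic map. -/
noncomputable def dMap (F : Fin (N + 1) ⊕ β → MvPolynomial (Fin (n + 1)) K)
    (x : Fin (n + 1) → K) : (Fin (n + 1) → K) →ₗ[K] (Fin (N + 1) → K) :=
  LinearMap.pi fun a => dL (F (Sum.inl a)) x

/-- Vectors of level at most two that are not selected from the generic map are mapped to the
tangent space of the target. -/
theorem dMap_D (hF : ∀ a, (F a).IsHomogeneous (d a)) (hD : DualS F d D fun _ _ => 0)
    (T : Submodule K (Fin (N + 1) → K))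
    (hDT : ∀ i (I : Fin (n + 1) →₀ ℕ), I.degree = d i →
      (fun a => D i I (eval x (F (Sum.inl a)))) ∈ T)
    (i : Fin (N + 1) ⊕ β) {I : Fin (n + 1) →₀ ℕ} (hI : I.degree = d i) :
    ∃ τ ∈ T, dMap F x (fun l => D i I (x l)) = τ - mon x I • (Sum.elim
      (fun a => (Pi.single a 1 : Fin (N + 1) → K)) (fun _ => 0) i) := by
  classical
  refine ⟨_, hDT i I hI, ?_⟩
  funext a
  have h1 := dL_D hF hD x i (Sum.inl a) hI
  rw [dMap, LinearMap.pi_apply, h1, Pi.sub_apply, Pi.smul_apply, smul_eq_mul]
  congr 1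
  rcases i with a' | b
  · simp only [Sum.inl.injEq, Nat.cast_zero, zero_mul, sub_zero, Sum.elim_inl]
    by_cases h : a' = a
    · rw [if_pos h, h, Pi.single_eq_same, mul_one]
    · rw [if_neg h, Pi.single_eq_of_ne (Ne.symm h), mul_zero]
  · simp

theorem dMap_x (hF : ∀ a, (F a).IsHomogeneous (d a)) {dd : ℕ}
    (hdd : ∀ a, d (Sum.inl a) = dd) :
    dMap F x x = (dd : K) • fun a => eval x (F (Sum.inl a)) := by
  funext a
  rw [dMap, LinearMap.pi_apply, dL_x hF, hdd, Pi.smul_apply, smul_eq_mul]

theorem card_sel (hF : ∀ a, (F a).IsHomogeneous (d a)) (hD : DualS F d D fun _ _ => 0) {dd : ℕ}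
    (hdd : ∀ a, d (Sum.inl a) = dd) (hx : x l0 ≠ 0) {v : Fin (n + 1) → Gn (Fin (N + 1) ⊕ β) n}
    (hdet : (Matrix.of fun t => gw d D x l0 (v t)).det ≠ 0)
    (hv : ∀ g (c : Fin (n + 1) → K), gw d D x l0 g = ∑ s, c s • gw d D x l0 (v s) →
      ∀ s, c s ≠ 0 → (v s).lev ≤ g.lev)
    (T : Submodule K (Fin (N + 1) → K)) (hzT : (fun a => eval x (F (Sum.inl a))) ∈ T)
    (hDT : ∀ i (I : Fin (n + 1) →₀ ℕ), I.degree = d i →
      (fun a => D i I (eval x (F (Sum.inl a)))) ∈ T) {c : ℕ}
    (hc : Module.finrank K T + c ≤ N + 1) (A : Finset (Fin (n + 1)))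
    (hA : ∀ t a, v t = Gn.v (Sum.inl a) → t ∈ A) : c ≤ A.card := by
  classical
  obtain ⟨U, hU⟩ : ∃ U : Submodule K (Fin (N + 1) → K), U = T ⊔
    Submodule.span K ((A.image fun t => dMap F x (gw d D x l0 (v t)) : Finset _) : Set _) :=
    ⟨_, rfl⟩
  have hTU : T ≤ U := by rw [hU]; exact le_sup_left
  -- the rows
  have hrow : ∀ s, (v s).lev ≤ 2 → dMap F x (gw d D x l0 (v s)) ∈ U := by
    intro s hs
    by_cases hsA : s ∈ A
    · rw [hU]
      refine Submodule.mem_sup_right (Submodule.subset_span ?_)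
      rw [Finset.coe_image]
      exact ⟨s, hsA, rfl⟩
    · apply hTU
      rcases hvs : v s with _ | ⟨i, M, p, q⟩ | i | i
      · change dMap F x x ∈ T
        rw [dMap_x hF hdd]
        exact Submodule.smul_mem _ _ hzT
      · by_cases hM : M.degree + 1 = d i
        · have h2 : gw d D x l0 (Gn.de i M p q) =
              x q • (fun l => D i (M + Finsupp.single p 1) (x l)) -
                x p • (fun l => D i (M + Finsupp.single q 1) (x l)) := by
            funext l
            simp only [gw, if_pos hM, Pi.sub_apply, Pi.smul_apply, smul_eq_mul]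
          obtain ⟨τ1, hτ1, h3⟩ := dMap_D hF hD T hDT i (I := M + Finsupp.single p 1) (by
            rw [map_add, Finsupp.degree_single, hM])
          obtain ⟨τ2, hτ2, h4⟩ := dMap_D hF hD T hDT i (I := M + Finsupp.single q 1) (by
            rw [map_add, Finsupp.degree_single, hM])
          rw [h2, map_sub, map_smul, map_smul, h3, h4, smul_sub, smul_sub, smul_smul, smul_smul]
          have h5 : x q * mon x (M + Finsupp.single p 1) =
              x p * mon x (M + Finsupp.single q 1) := by
            rw [mon_add, mon_add, mon_single, mon_single]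
            ring
          rw [h5, sub_sub_sub_cancel_right]
          exact Submodule.sub_mem _ (Submodule.smul_mem _ _ hτ1) (Submodule.smul_mem _ _ hτ2)
        · rw [de_zero hM, map_zero]
          exact zero_mem _
      · rcases i with a | b
        · exact absurd (hA s a hvs) hsA
        · have h2 : gw d D x l0 (Gn.v (Sum.inr b)) = (x l0 ^ d (Sum.inr b))⁻¹ •
              (fun l => D (Sum.inr b) (Finsupp.single l0 (d (Sum.inr b))) (x l)) := by
            funext l
            simp only [gw, Pi.smul_apply, smul_eq_mul]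
          obtain ⟨τ1, hτ1, h3⟩ := dMap_D hF hD T hDT (Sum.inr b)
            (I := Finsupp.single l0 (d (Sum.inr b))) (by rw [Finsupp.degree_single])
          rw [h2, map_smul, h3, Sum.elim_inr, smul_zero, sub_zero]
          exact Submodule.smul_mem _ _ hτ1
      · rw [hvs] at hs
        exact absurd hs (by simp [Gn.lev])
  -- the basis vectors
  have hbas : ∀ a, (Pi.single a 1 : Fin (N + 1) → K) ∈ U := by
    intro a
    obtain ⟨c', hc'⟩ := exists_coord hdet (gw d D x l0 (Gn.v (Sum.inl a)))
    have hc'' : gw d D x l0 (Gn.v (Sum.inl a)) = ∑ s, c' s • gw d D x l0 (v s) := hc'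
    have h1 : dMap F x (gw d D x l0 (Gn.v (Sum.inl a))) ∈ U := by
      rw [hc'', map_sum]
      refine Submodule.sum_mem _ fun s _ => ?_
      rw [map_smul]
      by_cases hs : c' s = 0
      · rw [hs, zero_smul]; exact zero_mem _
      · exact Submodule.smul_mem _ _ (hrow s (hv _ c' hc'' s hs))
    have h2 : gw d D x l0 (Gn.v (Sum.inl a)) = (x l0 ^ d (Sum.inl a))⁻¹ •
        (fun l => D (Sum.inl a) (Finsupp.single l0 (d (Sum.inl a))) (x l)) := by
      funext l
      simp only [gw, Pi.smul_apply, smul_eq_mul]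
    obtain ⟨τ1, hτ1, h3⟩ := dMap_D hF hD T hDT (Sum.inl a)
      (I := Finsupp.single l0 (d (Sum.inl a))) (by rw [Finsupp.degree_single])
    rw [h2, map_smul, h3, Sum.elim_inl, mon_single, smul_sub, smul_smul,
      inv_mul_cancel₀ (pow_ne_zero _ hx), one_smul] at h1
    have h4 := Submodule.sub_mem _ (hTU (Submodule.smul_mem _ (x l0 ^ d (Sum.inl a))⁻¹ hτ1)) h1
    rwa [sub_sub_cancel] at h4
  have hUtop : U = ⊤ := by
    rw [eq_top_iff, ← (Pi.basisFun K (Fin (N + 1))).span_eq, Submodule.span_le]
    rintro _ ⟨a, rfl⟩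
    rw [Pi.basisFun_apply]
    exact hbas a
  have h1 : Module.finrank K U = N + 1 := by
    rw [hUtop, finrank_top, Module.finrank_fin_fun]
  have h2 := finrank_span_finset_le_card (R := K)
    (A.image fun t => dMap F x (gw d D x l0 (v t)))
  have h3 := Submodule.finrank_add_le_finrank_add_finrank T (Submodule.span K
    ((A.image fun t => dMap F x (gw d D x l0 (v t)) : Finset _) : Set _))
  rw [← hU, h1] at h3
  have h4 : (A.image fun t => dMap F x (gw d D x l0 (v t))).card ≤ A.card :=
    Finset.card_image_le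
  unfold Set.finrank at h2
  omega

end sel

end Pool.Agent.T6.H19.PB
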