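import Pool.Agent.T6.H19.PB.Glob
import Pool.Agent.TH812.GV2.Vojta

/-!
Vojta's height inequality for preimages of arbitrary varieties under generic maps.
-/

set_option autoImplicit false

open MvPolynomial FF Pool.Agent.W603.LV Pool.Agent.W603.PV Pool.Agent.TH145.GH
  Pool.Agent.TH145.MG Pool.Agent.W602.GT Pool.Agent.W603.CZ

namespace Pool.Agent.T6.H19.PB

open Pool.Agent.TH812.GV Pool.Agent.TH812.GV2

theorem exists_T {k K : Type} [Field k] [Field K] [Algebra k K] [CharZero K] {N q : ℕ}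
    (z : Fin (N + 1) → K) (h : z ≠ 0 → Algebra.trdeg k (coords k z) ≤ q) :
    ∃ T : Submodule K (Fin (N + 1) → K), Module.finrank K T + (N - q) ≤ N + 1 ∧ z ∈ T ∧
      ∀ D : Derivation ℤ K K, (∀ r : k, D (algebraMap k K r) = 0) → (fun l => D (z l)) ∈ T := by
  by_cases hz : z = 0
  · refine ⟨⊥, ?_, ?_, fun D _ => ?_⟩
    · rw [finrank_bot]; omega
    · rw [hz]; exact zero_mem _
    · have : (fun l => D (z l)) = 0 := by
        funext l
        rw [hz]
        simp
      rw [this]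
      exact zero_mem _
  · by_cases hq : q ≤ N
    · obtain ⟨T, h1, h2, h3⟩ := exists_W (k := k) hz (h hz)
      exact ⟨T, by omega, h2, h3⟩
    · refine ⟨⊤, ?_, Submodule.mem_top, fun D _ => Submodule.mem_top⟩
      rw [finrank_top, Module.finrank_fin_fun]
      omega

theorem vojta_pull {k0 k F0 F : Type} [Field k0] [Field k] [Field F0] [Field F] [IsAlgClosed k]
    [CharZero k] [Algebra k0 k] [Algebra k F] [Algebra k0 F] [IsScalarTower k0 k F]
    [Algebra k0 F0] [Algebra F0 F] [IsScalarTower k0 F0 F] [IsFF k F]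
    (hfg : ∃ S : Finset F0, IntermediateField.adjoin k0 (S : Set F0) = ⊤) {n m N : ℕ}
    (V : Set (MvPolynomial (Fin (n + 1)) F0)) (hV : DimLE F0 V m) {β : Type} [Fintype β]
    (H : Fin (N + 1) ⊕ β → MvPolynomial (Fin (n + 1)) F) (d : Fin (N + 1) ⊕ β → ℕ) {dd : ℕ}
    (hdd : ∀ a, d (Sum.inl a) = dd)
    (hH : ∀ a, (H a).IsHomogeneous (d a))
    (hgen : AlgebraicIndependent F0
      fun p : (a : Fin (N + 1) ⊕ β) × {I : Fin (n + 1) →₀ ℕ // I.degree = d a} =>
        (H p.1).coeff p.2.1) :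
    ∃ C : ℕ, ∀ (q : ℕ) (L : Type) [Field L] [Algebra k L] [Algebra F L]
      [IsScalarTower k F L] [FiniteDimensional F L] (x : Fin (n + 1) → L), x ≠ 0 →
      (∀ f ∈ V, aeval x (map (algebraMap F0 F) f) = 0) →
      (let _ : Algebra F0 L := ((algebraMap F L).comp (algebraMap F0 F)).toAlgebra
       (fun a => aeval x (H (Sum.inl a))) ≠ (0 : Fin (N + 1) → L) →
        Algebra.trdeg F0 (coords F0 (fun a => aeval x (H (Sum.inl a)))) ≤ q) →
      (((N : ℤ) - q) * (dd + 1) + ∑ b, (d (Sum.inr b) : ℤ) +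
        {b | aeval x (H (Sum.inr b)) = 0}.ncard - 2 * m - 1) * pht k x ≤
        (meetsAny (k := k) (fun b : {b // aeval x (H (Sum.inr b)) ≠ 0} => H (Sum.inr b))
          (fun b => d (Sum.inr b)) x).ncard +
          canDeg k L + C * Module.finrank F L := by
  classical
  have hF : CharZero F := charZero_of_injective_algebraMap (algebraMap k F).injective
  obtain ⟨Ix, hIx⟩ : ∃ Ix : Type, Ix = ((a : Fin (N + 1) ⊕ β) ×
    {I : Fin (n + 1) →₀ ℕ // I.degree = d a}) := ⟨_, rfl⟩
  subst hIx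
  have hfinI : ∀ a, {I : Fin (n + 1) →₀ ℕ | I.degree = d a}.Finite := fun a =>
    (Finsupp.finite_of_degree_le (d a)).subset fun I hI => le_of_eq hI
  have hfs : ∀ a, Finite {I : Fin (n + 1) →₀ ℕ // I.degree = d a} := fun a => hfinI a
  have hfx : Finite ((a : Fin (N + 1) ⊕ β) × {I : Fin (n + 1) →₀ ℕ // I.degree = d a}) :=
    inferInstance
  obtain ⟨Db, hDbg, hDbk, hDb⟩ := exists_duals2 (k0 := k0) (k := k) (F0 := F0) (F := F) hfg
    (fun p : (a : Fin (N + 1) ⊕ β) × {I : Fin (n + 1) →₀ ℕ // I.degree = d a} =>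
      (H p.1).coeff p.2.1) hgen
  obtain ⟨D, hD⟩ : ∃ D : Fin (N + 1) ⊕ β → (Fin (n + 1) →₀ ℕ) → Derivation ℤ F F, ∀ a I,
    D a I = if h : I.degree = d a then Db ⟨a, I, h⟩ else 0 := ⟨_, fun _ _ => rfl⟩
  have hdual : DualS H d D fun _ _ => 0 := by
    intro a b I J hI hJ
    rw [hD, dif_pos hI]
    have h1 := hDb ⟨a, I, hI⟩ ⟨b, J, hJ⟩
    by_cases hab : a = b
    · subst hab
      rw [if_pos rfl]
      by_cases hIJ : I = J
      · subst hIJ
        rw [if_pos rfl, h1.1 rfl]
        simp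
      · rw [if_neg hIJ, h1.2 (by
          intro h
          apply hIJ
          simpa using h)]
        simp
    · rw [if_neg hab]
      exact h1.2 (by
        intro h
        apply hab
        exact congrArg Sigma.fst h)
  have hgood : ∀ a I, GoodS k (D a I) := by
    intro a I
    rw [hD]
    split_ifs
    · exact hDbg _
    · exact GoodS.zero
  have hDk : ∀ a I (r : F0), D a I (algebraMap F0 F r) = 0 := by
    intro a I r
    rw [hD]
    split_ifs
    · exact hDbk _ r
    · rfl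
  -- the loss
  choose q hq0 hqf hq using hgood
  obtain ⟨Q, hQ⟩ : ∃ Q : Place k F → ℤ, ∀ v, Q v = ∑ a, ∑ I ∈ (hfinI a).toFinset, q a I v :=
    ⟨_, fun _ => rfl⟩
  have hQ0 : ∀ v, 0 ≤ Q v := fun v => by
    rw [hQ]
    exact Finset.sum_nonneg fun a _ => Finset.sum_nonneg fun I _ => hq0 a I v
  have hQf : {v | Q v ≠ 0}.Finite := by
    have h1 : (⋃ a : Fin (N + 1) ⊕ β, ⋃ I ∈ (hfinI a).toFinset, {v | q a I v ≠ 0}).Finite :=
      Set.finite_iUnion fun a => (hfinI a).toFinset.finite_toSet.biUnion fun I _ => hqf a I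
    refine h1.subset fun v hv => ?_
    by_contra hcon
    simp only [Set.mem_iUnion, not_exists, Set.mem_ofPred_eq, not_not] at hcon
    apply hv
    rw [hQ]
    exact Finset.sum_eq_zero fun a _ => Finset.sum_eq_zero fun I hI => hcon a I hI
  have hQle : ∀ a (I : Fin (n + 1) →₀ ℕ), I.degree = d a → ∀ v, q a I v ≤ Q v := by
    intro a I hI v
    rw [hQ]
    refine le_trans ?_ (Finset.single_le_sum (f := fun a => ∑ I ∈ (hfinI a).toFinset, q a I v)
      (fun a _ => Finset.sum_nonneg fun I _ => hq0 a I v) (Finset.mem_univ a))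
    exact Finset.single_le_sum (f := fun I => q a I v) (fun I _ => hq0 a I v)
      (by rw [Set.Finite.mem_toFinset]; exact hI)
  obtain ⟨C1, hC1⟩ := sum_loss (k := k) hQ0 hQf
  obtain ⟨C3, hC3⟩ := sum_under (k := k) hQ0 hQf
  refine ⟨C1 + (Fintype.card β + m + 2) * C3, ?_⟩
  intro q' L _ _ _ _ _ x hx hxV hxZ
  have hL : IsFF k L := isFF_of_finite (F := F)
  have hLz : CharZero L := charZero_of_injective_algebraMap (algebraMap k L).injective
  let _ : Algebra F0 L := ((algebraMap F L).comp (algebraMap F0 F)).toAlgebra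
  choose D' hD' hDl using fun a I => hq a I L
  obtain ⟨HL, hHL⟩ : ∃ HL : Fin (N + 1) ⊕ β → MvPolynomial (Fin (n + 1)) L, ∀ a,
    HL a = map (algebraMap F L) (H a) := ⟨_, fun _ => rfl⟩
  obtain ⟨hqfin, hqsum⟩ := hC1 L
  obtain ⟨hufin, husum⟩ := hC3 L
  obtain ⟨el, hel⟩ : ∃ el : Place k L → ℤ, ∀ P, el P =
    ((ram F P : ℤ) - 1) + ram F P * Q (under F P) := ⟨_, fun _ => rfl⟩
  obtain ⟨ql, hql⟩ : ∃ ql : Place k L → ℤ, ∀ P, ql P = ram F P * Q (under F P) :=
    ⟨_, fun _ => rfl⟩
  have hql0 : ∀ P, 0 ≤ ql P := fun P => by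
    rw [hql]
    exact mul_nonneg (by positivity) (hQ0 _)
  have hsys : SysS k HL d D' (fun _ _ => 0) ql el := by
    refine ⟨fun a => by rw [hHL]; exact (hH a).map _, ?_, hql0, fun P => ?_,
      fun P a I hI => ?_, fun P δ hδ a I hI g f hf => ?_, ?_, ?_⟩
    · intro a b I J hI hJ
      rw [hHL, coeff_map, hD', hdual a b I J hI hJ]
      split_ifs
      · simp
      · simp
      · simp
    · rw [hel]
      have h1 := (ram_spec (F := F) P).1
      have h2 := hql0 P
      rw [hql] at h2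
      omega
    · rw [hel]
      refine (hDl a I P).1.mono ?_
      have h1 := hQle a I hI (under F P)
      have h2 : (0 : ℤ) ≤ ram F P := by positivity
      nlinarith
    · rw [hql]
      refine ((hDl a I P).2 δ hδ g f hf).mono ?_
      have h1 := hQle a I hI (under F P)
      have h2 : (0 : ℤ) ≤ ram F P := by positivity
      nlinarith
    · simp only [hql]
      exact hufin
    · simp only [hel]
      exact hqfin
  have hDk' : ∀ a I (r : F0), D' a I (algebraMap F0 L r) = 0 := by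
    intro a I r
    change D' a I (algebraMap F L (algebraMap F0 F r)) = 0
    rw [hD', hDk, map_zero]
  have htr : Algebra.trdeg F0 (coords F0 x) ≤ m := by
    refine hV L x hx fun f hf => ?_
    have h1 := hxV f hf
    rw [aeval_eq_eval_map, map_map, eval_map] at h1
    rw [aeval_def]
    exact h1
  obtain ⟨W, hWm, hxW, hDW⟩ := exists_W hx htr
  have hval : ∀ a, eval x (HL a) = aeval x (H a) := by
    intro a
    rw [hHL, aeval_eq_eval_map]
  obtain ⟨T, hTc, hzT, hDT⟩ := exists_T (k := F0) (q := q')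
    (fun a => aeval x (H (Sum.inl a))) hxZ
  have key := ineq3 hsys hdd hx W hWm hxW (fun a I _ => hDW (D' a I) (hDk' a I)) T (by
    simp only [hval]; exact hzT) (fun i I _ => by
      simp only [hval]; exact hDT (D' i I) (hDk' i I)) hTc
  have hiff : ∀ a, eval x (HL a) = 0 ↔ aeval x (H a) = 0 := fun a => by rw [hval]
  have hE1 : ((Finset.univ.filter fun b => eval x (HL (Sum.inr b)) = 0).card : ℤ) =
      {b | aeval x (H (Sum.inr b)) = 0}.ncard := by
    rw [Set.ncard_eq_toFinset_card']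
    congr 2
    ext a
    rw [Finset.mem_filter, Set.mem_toFinset, Set.mem_ofPred_eq, hiff]
    exact ⟨fun h => h.2, fun h => ⟨Finset.mem_univ _, h⟩⟩
  rw [hE1] at key
  -- the counting function
  obtain ⟨cnt, hcnt⟩ : ∃ cnt : Place k L → ℤ, ∀ P, cnt P = if ∃ b,
    eval x (HL (Sum.inr b)) ≠ 0 ∧ d (Sum.inr b) * pord P x < P.ord (eval x (HL (Sum.inr b)))
      then 1 else 0 :=
    ⟨_, fun _ => rfl⟩
  obtain ⟨A, hA⟩ : ∃ A : Set (Place k L), A = meetsAny (k := k)
    (fun b : {b // aeval x (H (Sum.inr b)) ≠ 0} => H (Sum.inr b))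
    (fun b => d (Sum.inr b)) x := ⟨_, rfl⟩
  have hAfin : A.Finite := by
    have hp := pord_finite (k := k) (Function.ne_iff.1 hx)
    have h1 : (⋃ b : β, {P : Place k L | P.ord (aeval x (H (Sum.inr b))) ≠ 0}).Finite :=
      Set.finite_iUnion fun a => finite_support _
    refine (h1.union hp).subset fun P hP => ?_
    by_contra hcon
    simp only [Set.mem_union, Set.mem_iUnion, Set.mem_ofPred_eq, not_or, not_exists, not_not] at hcon
    obtain ⟨h2, h3⟩ := hcon
    have h3' : pord P x = 0 := by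
      by_contra h
      exact h3 h
    rw [hA] at hP
    obtain ⟨a, ha⟩ := hP
    rw [h3', mul_zero, h2 a.1] at ha
    exact lt_irrefl _ ha
  have hcle : ∀ P, cnt P ≤ 1 := by
    intro P
    rw [hcnt]
    split_ifs <;> norm_num
  have hcsupp : ∀ P, cnt P ≠ 0 → P ∈ A := by
    intro P hP
    rw [hcnt] at hP
    obtain ⟨a, ha0, ha⟩ : ∃ b, eval x (HL (Sum.inr b)) ≠ 0 ∧
        d (Sum.inr b) * pord P x < P.ord (eval x (HL (Sum.inr b))) := by
      by_contra h
      rw [if_neg h] at hP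
      exact hP rfl
    have haE : aeval x (H (Sum.inr a)) ≠ 0 := fun h => ha0 ((hiff _).2 h)
    rw [hA]
    refine ⟨⟨a, haE⟩, ?_⟩
    rw [hval] at ha
    exact ha
  have hcfin : {P | cnt P ≠ 0}.Finite := hAfin.subset hcsupp
  have hcsum : ∑ᶠ P, cnt P ≤ A.ncard := by
    have h1 := finsum_le_card hAfin (M := 1) hcle hcsupp
    rw [one_mul] at h1
    exact h1
  obtain ⟨B, hBd⟩ : ∃ B : ℤ, B = Fintype.card β + m + 2 := ⟨_, rfl⟩
  have hB0 : 0 ≤ B := by rw [hBd]; positivity
  simp only [← hcnt, ← hBd] at key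
  have hfe : {P | el P ≠ 0}.Finite := hsys.efin
  have hfq : {P | ql P ≠ 0}.Finite := hsys.qfin
  have hfq' : {P | B * ql P ≠ 0}.Finite := hfq.subset fun P hP => right_ne_zero_of_mul hP
  have hfs : ∑ᶠ P : Place k L, (cnt P + (el P + B * ql P)) =
      ∑ᶠ P, cnt P + (∑ᶠ P, el P + B * ∑ᶠ P, ql P) := by
    rw [finsum_add_distrib hcfin ((hfe.union hfq').subset fun P hP => by
      by_contra hcon
      simp only [Set.mem_union, Set.mem_ofPred_eq, not_or, not_not] at hcon
      apply hP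
      dsimp only
      rw [hcon.1, hcon.2, add_zero]), finsum_add_distrib hfe hfq', ← mul_finsum]
  rw [hfs] at key
  have hes : ∑ᶠ P, el P ≤ canDeg k L + C1 * Module.finrank F L := by
    have h1 : el = fun P => ((ram F P : ℤ) - 1) + ram F P * Q (under F P) := funext hel
    rw [h1]
    exact hqsum
  have hqs : ∑ᶠ P, ql P ≤ C3 * Module.finrank F L := by
    have h1 : ql = fun P => (ram F P : ℤ) * Q (under F P) := funext hql
    rw [h1]
    exact husum
  have h10 : B * ∑ᶠ P, ql P ≤ B * (C3 * Module.finrank F L) :=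
    mul_le_mul_of_nonneg_left hqs hB0
  have hpht : 0 ≤ pht k x := by
    obtain ⟨l, hl⟩ := Function.ne_iff.1 hx
    exact (hgt_nonneg _).trans (Pool.Agent.W603.CX.hgt_le_pht (k := k) x hl hl)
  have hco : (((N : ℤ) - q') * (dd + 1) + ∑ b, (d (Sum.inr b) : ℤ) +
        {b | aeval x (H (Sum.inr b)) = 0}.ncard - 2 * m - 1) * pht k x ≤
      (((N - q' : ℕ) : ℤ) * ((dd : ℤ) + 1) + ∑ b, (d (Sum.inr b) : ℤ) +
        {b | aeval x (H (Sum.inr b)) = 0}.ncard - 2 * m - 1) * pht k x := by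
    refine mul_le_mul_of_nonneg_right ?_ hpht
    have h1 : ((N : ℤ) - q') ≤ ((N - q' : ℕ) : ℤ) := by omega
    have h2 : ((N : ℤ) - q') * (dd + 1) ≤ ((N - q' : ℕ) : ℤ) * ((dd : ℤ) + 1) :=
      mul_le_mul_of_nonneg_right h1 (by positivity)
    linarith
  rw [← hA]
  have hcast : ((C1 + (Fintype.card β + m + 2) * C3 : ℕ) : ℤ) = C1 + B * C3 := by
    rw [hBd]
    push_cast
    ring
  rw [hcast]
  have hfinal : (A.ncard : ℤ) + (canDeg k L + C1 * Module.finrank F L +
      B * (C3 * Module.finrank F L)) =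
      A.ncard + canDeg k L + (C1 + B * C3) * Module.finrank F L := by
    ring
  rw [← hfinal]
  exact hco.trans (key.trans (add_le_add hcsum (add_le_add hes h10)))

end Pool.Agent.T6.H19.PB
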